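import Pool.Agent.H312GHM.Final

/-!
The Greenberg-Hastings half of Q1 of MP_5517c4_pr: with threshold `θ = 2`, on the
`(d+1)`-regular tree with `d = 3` or `d = 4`, the GHM started from the uniform product measure
fixates almost surely for every number of colours `κ ≥ 3`.
-/

namespace Pool.Agent.Results.MP_5517c4_pr.GreenbergHastingsFixates

open Pool.Agent.H312GHM MeasureTheory

theorem result (V : Type) [Countable V] (G : SimpleGraph V) [G.LocallyFinite] (d : ℕ)
    (hd : d = 3 ∨ d = 4) (hG : G.IsTree) (hreg : G.IsRegularOfDegree (d + 1))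
    (κ : ℕ) [NeZero κ] (hκ : 3 ≤ κ) :
    ∀ᵐ γ ∂(unif V κ), Fixates G γ := by
  obtain ⟨k, rfl⟩ := Nat.exists_eq_add_of_le' hκ
  rcases hd with rfl | rfl
  · exact case3 (k := k) hG.isAcyclic hreg
  · exact case4 (k := k) hG.isAcyclic hreg

end Pool.Agent.Results.MP_5517c4_pr.GreenbergHastingsFixates
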